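import Pool.Agent.H76.PP.Te
import Pool.Agent.H76.PP.Tj
import Pool.Agent.H54.PR.Sa
import Pool.Agent.H54.PR.Sb

/-!
Local isotropy of the tame pairing at an odd place, and the sum over the places outside a finite set
(project MP_78d38b, MT).
-/

set_option autoImplicit false
set_option linter.unusedSectionVars false
open scoped Classical

open WithZero NumberField IsDedekindDomain H38RT H76PP
open H38T1 (SC sc scu rep eo la si Pri OddP tp unif)

namespace H54MT

section one

variable {F : Type} [Field F] [NumberField F] {v : HeightOneSpectrum (𝓞 F)}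

theorem two_add (c : SC F) : c + c = 0 := (two_nsmul c).symm.trans (H38T1.SC.two_smul c)

theorem near_one {y : F} (h : v.valuation F (y - 1) < 1) : v.valuation F y = 1 := by
  have h1 := Valuation.map_one_add_of_lt (v.valuation F) h
  rwa [add_sub_cancel] at h1

theorem tp_near (hv : OddP v) {y : F} (h : v.valuation F (y - 1) < 1) (c : SC F) :
    tp v c (sc y) = 0 := by
  have h1 := near_one h
  have hy : y ≠ 0 := by
    rintro rfl
    rw [map_zero] at h1
    exact zero_ne_one h1
  have h3 : eo v (sc y) = 0 := by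
    rw [H38T1.eo_sc hy]
    unfold ord
    rw [h1, log_one, neg_zero, Int.cast_zero]
  have h2 : la v (sc y) = 0 := by
    rw [H38T1.la_sc hv hy, lam_unit h1]
    refine if_pos ⟨1, ?_⟩
    rwa [one_pow]
  unfold tp
  rw [h3, h2]
  ring

theorem sc_sq {z : F} (hz : z ≠ 0) : sc (z ^ 2) = 0 :=
  (H38T1.sc_eq_zero (pow_ne_zero 2 hz)).2 ⟨z, sq z⟩

theorem tp_near_sq (hv : OddP v) {y z : F} (hy : y ≠ 0) (hz : z ≠ 0)
    (h : v.valuation F (y / z ^ 2 - 1) < 1) (c : SC F) : tp v c (sc y) = 0 := by
  have h1 : sc y = sc (y / z ^ 2) := by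
    have h2 := H38T1.sc_mul (div_ne_zero hy (pow_ne_zero 2 hz)) (pow_ne_zero 2 hz)
    rw [div_mul_cancel₀ _ (pow_ne_zero 2 hz), sc_sq hz, add_zero] at h2
    exact h2
  rw [h1]
  exact tp_near hv h c

end one

variable {K L : Type} [Field K] [NumberField K] [Field L] [NumberField L] [Algebra K L]

/-- The sum over the places above an odd place vanishes. -/
theorem loc_iso {A B : 𝓞 K} {θ : L} (h : Cub K L (A : K) (B : K) θ) (hR : HR2 K L A B θ)
    {v : HeightOneSpectrum (𝓞 K)} (hv : OddP v) {d d' : Fin 3 → K} (hd : ev θ d ≠ 0)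
    (hd' : ev θ d' ≠ 0) (h1 : LC (algebraMap K (v.adicCompletion K)) (A : K) (B : K) d)
    (h2 : LC (algebraMap K (v.adicCompletion K)) (A : K) (B : K) d') :
    ∑ᶠ w : {w : HeightOneSpectrum (𝓞 L) // dn K w = v},
      tp w.1 (sc (ev θ d)) (sc (ev θ d')) = 0 := by
  obtain ⟨x, y, z, hy, hz, hf, hw⟩ := LC_approx h hd v h1
  obtain ⟨x', y', z', hy', hz', hf', hw'⟩ := LC_approx h hd' v h2
  set U : L := algebraMap K L x - θ with hU
  set W : L := algebraMap K L x' - θ with hW
  have hU0 : U ≠ 0 := H54PR.sub_ne h x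
  have hW0 : W ≠ 0 := H54PR.sub_ne h x'
  have hfx : x ^ 3 + (A : K) * x + (B : K) ≠ 0 := H54PR.ff_ne h x
  have hfx' : x' ^ 3 + (A : K) * x' + (B : K) ≠ 0 := H54PR.ff_ne h x'
  have hodd : ∀ w : {w : HeightOneSpectrum (𝓞 L) // dn K w = v}, OddP w.1 := by
    intro w
    rw [oddP_dn (K := K), w.2]
    exact hv
  have e1 : ∀ w : {w : HeightOneSpectrum (𝓞 L) // dn K w = v},
      tp w.1 (sc (ev θ d)) (sc (ev θ d')) = tp w.1 (sc U) (sc W) := by
    intro w
    have a1 := tp_near_sq (hodd w) (mul_ne_zero hd hU0) hz (hw w.1 w.2) (sc (ev θ d'))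
    have a2 := tp_near_sq (hodd w) (mul_ne_zero hd' hW0) hz' (hw' w.1 w.2) (sc U)
    rw [H38T1.sc_mul hd hU0, H54PR.tp_add_right (hodd w), H38T1.tp_comm,
      H38T1.tp_comm (sc (ev θ d')) (sc U)] at a1
    rw [H38T1.sc_mul hd' hW0, H54PR.tp_add_right (hodd w)] at a2
    have e3 : ∀ p q r : ZMod 2, p + q = 0 → q + r = 0 → p = r := by decide
    exact e3 _ _ _ a1 a2
  rw [finsum_congr e1]
  have hfin : Finite {w : HeightOneSpectrum (𝓞 L) // dn K w = v} := (fin_above v).to_subtype
  by_cases hxx : x = x'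
  · have e2 : ∀ w : {w : HeightOneSpectrum (𝓞 L) // dn K w = v},
        tp w.1 (sc U) (sc W) = tp w.1 (sc U) (sc (algebraMap K L (-1))) := by
      intro w
      have b1 := H38T1.tp_neg (hodd w) hU0
      have b2 : sc (-U) = sc (-1 : L) + sc U := by
        rw [← H38T1.sc_mul (neg_ne_zero.2 one_ne_zero) hU0, neg_one_mul]
      rw [b2, H54PR.tp_add_right (hodd w)] at b1
      have b3 : W = U := by rw [hU, hW, hxx]
      rw [b3, map_neg, map_one]
      have e3 : ∀ p q : ZMod 2, p + q = 0 → q = p := by decide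
      exact e3 _ _ b1
    rw [finsum_congr e2, hR.proj hv hU0 (neg_ne_zero.2 one_ne_zero), h.norm_sub x, H38T1.tp_comm]
    exact tp_near_sq hv hfx hy hf _
  · have hc : x - x' ≠ 0 := sub_ne_zero.2 hxx
    have hUW : U - W = algebraMap K L (x - x') := by
      rw [hU, hW, map_sub]
      ring
    have hUW0 : U - W ≠ 0 := by
      rw [hUW]
      exact (map_ne_zero (algebraMap K L)).2 hc
    have e2 : ∀ w : {w : HeightOneSpectrum (𝓞 L) // dn K w = v},
        tp w.1 (sc U) (sc W) = tp w.1 (sc U) (sc (algebraMap K L (-(x - x')))) +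
          tp w.1 (sc W) (sc (algebraMap K L (x - x'))) := by
      intro w
      rw [H54PR.tp_sub (hodd w) hU0 hW0 hUW0, map_neg, hUW]
    rw [finsum_congr e2, finsum_add_distrib (Set.toFinite _) (Set.toFinite _),
      hR.proj hv hU0 (neg_ne_zero.2 hc), hR.proj hv hW0 hc, h.norm_sub x, h.norm_sub x',
      H38T1.tp_comm, tp_near_sq hv hfx hy hf, H38T1.tp_comm, tp_near_sq hv hfx' hy' hf', add_zero]

theorem fiber_sum {α β M : Type*} [AddCommMonoid M] (f : α → β) (g : α → M)
    (hg : (Function.support g).Finite) :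
    ∑ᶠ a, g a = ∑ᶠ b, ∑ᶠ a : {a // f a = b}, g a.1 := by
  have h1 : ∀ b, ∑ᶠ a : {a // f a = b}, g a.1 = ∑ a ∈ hg.toFinset with f a = b, g a := by
    intro b
    exact (finsum_set_coe_eq_finsum_mem (f := g) {a | f a = b}).trans
      (finsum_mem_eq_sum_filter g {a | f a = b} hg)
  rw [finsum_congr h1, finsum_eq_sum g hg]
  rw [finsum_eq_sum_of_support_subset (s := hg.toFinset.image f)
    (fun b => ∑ a ∈ hg.toFinset with f a = b, g a)]
  · exact (Finset.sum_fiberwise_of_maps_to
      (fun a ha => Finset.mem_image_of_mem f ha) g).symm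
  · intro b hb
    by_contra hn
    apply hb
    refine Finset.sum_eq_zero fun a ha => ?_
    rw [Finset.mem_filter] at ha
    exfalso
    apply hn
    rw [Finset.mem_coe, ← ha.2]
    exact Finset.mem_image_of_mem f ha.1

/-- The sum over the places outside `S` vanishes. -/
theorem iso_S {A B : 𝓞 K} {θ : L} (h : Cub K L (A : K) (B : K) θ) (hR : HR2 K L A B θ)
    {S : Finset (HeightOneSpectrum (𝓞 K))}
    (hS : ∀ v : HeightOneSpectrum (𝓞 K), v.valuation K 2 < 1 → v ∈ S) {d d' : Fin 3 → K}
    (hd : ev θ d ≠ 0) (hd' : ev θ d' ≠ 0) (hN : IsSquare (Algebra.norm K (ev θ d)))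
    (hN' : IsSquare (Algebra.norm K (ev θ d')))
    (hL : ∀ v ∈ S, LC (algebraMap K (v.adicCompletion K)) (A : K) (B : K) d ∧
      LC (algebraMap K (v.adicCompletion K)) (A : K) (B : K) d')
    (hr : ∀ s : K →+* ℝ, LC s (A : K) (B : K) d ∧ LC s (A : K) (B : K) d') :
    ∑ᶠ w : HeightOneSpectrum (𝓞 L),
      (if dn K w ∉ S then tp w (sc (ev θ d)) (sc (ev θ d')) else 0) = 0 := by
  have h1 := hR.iso hd hd' hN hN' (fun v hv => hL v (hS v hv)) hr
  set g : HeightOneSpectrum (𝓞 L) → ZMod 2 :=
    fun w => if OddP w then tp w (sc (ev θ d)) (sc (ev θ d')) else 0 with hg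
  have hfin : (Function.support g).Finite := H54PR.tp_fin hd hd'
  set p : HeightOneSpectrum (𝓞 L) → ZMod 2 := fun w => if dn K w ∉ S then g w else 0 with hp
  set q : HeightOneSpectrum (𝓞 L) → ZMod 2 := fun w => if dn K w ∈ S then g w else 0 with hq
  have hpq : ∀ w, g w = p w + q w := by
    intro w
    by_cases hw : dn K w ∈ S
    · simp only [hp, hq, hw, not_true_eq_false, if_true, if_false, zero_add]
    · simp only [hp, hq, hw, not_false_eq_true, if_true, if_false, add_zero]
  have hpf : (Function.support p).Finite := by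
    refine hfin.subset fun w hw => ?_
    intro h0
    apply hw
    simp only [hp, h0, ite_self]
  have hqf : (Function.support q).Finite := by
    refine hfin.subset fun w hw => ?_
    intro h0
    apply hw
    simp only [hq, h0, ite_self]
  have hq0 : ∑ᶠ w, q w = 0 := by
    rw [fiber_sum (dn K) q hqf]
    have h2 : ∀ v : HeightOneSpectrum (𝓞 K),
        ∑ᶠ w : {w : HeightOneSpectrum (𝓞 L) // dn K w = v}, q w.1 = 0 := by
      intro v
      by_cases hv : v ∈ S
      · by_cases ho : OddP v
        · have h3 : ∀ w : {w : HeightOneSpectrum (𝓞 L) // dn K w = v},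
              q w.1 = tp w.1 (sc (ev θ d)) (sc (ev θ d')) := by
            intro w
            have hw : OddP w.1 := by
              rw [oddP_dn (K := K), w.2]
              exact ho
            simp only [hq, hg, w.2, hv, hw, if_true]
          rw [finsum_congr h3]
          exact loc_iso h hR ho hd hd' (hL v hv).1 (hL v hv).2
        · have h3 : ∀ w : {w : HeightOneSpectrum (𝓞 L) // dn K w = v}, q w.1 = 0 := by
            intro w
            have hw : ¬ OddP w.1 := by
              rw [oddP_dn (K := K), w.2]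
              exact ho
            simp only [hq, hg, hw, if_false, ite_self]
          rw [finsum_congr h3, finsum_zero]
      · have h3 : ∀ w : {w : HeightOneSpectrum (𝓞 L) // dn K w = v}, q w.1 = 0 := by
          intro w
          simp only [hq, w.2, hv, if_false]
        rw [finsum_congr h3, finsum_zero]
    rw [finsum_congr h2, finsum_zero]
  have hp0 : ∑ᶠ w, p w = 0 := by
    have h2 : ∑ᶠ w, g w = ∑ᶠ w, p w + ∑ᶠ w, q w := by
      rw [← finsum_add_distrib hpf hqf]
      exact finsum_congr hpq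
    rw [h1, hq0, add_zero] at h2
    exact h2.symm
  refine Eq.trans (finsum_congr fun w => ?_) hp0
  by_cases hw : dn K w ∈ S
  · simp only [hp, hw, not_true_eq_false, if_false]
  · have ho : OddP w := by
      rw [oddP_dn (K := K)]
      by_contra hn
      exact hw (hS _ (H38T1.not_oddP.1 hn))
    simp only [hp, hg, hw, ho, not_false_eq_true, if_true]

end H54MT
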